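import Pool.Agent.Q153.SpanTwo.Lattice

/-!
# The rotated lattice of a pair of generators
-/

set_option autoImplicit false

namespace Pool.Agent.Q153.SpanTwo

/-- the lattice of the points `(x + y, x - y)` with `k ∣ A x + B y` -/
def rotLat (A B k : ℤ) : AddSubgroup (ℤ × ℤ) where
  carrier := {m | ∃ x y : ℤ, m = (x + y, x - y) ∧ k ∣ A * x + B * y}
  zero_mem' := ⟨0, 0, by ext <;> simp, by simp⟩
  add_mem' := by
    rintro _ _ ⟨x, y, rfl, h⟩ ⟨x', y', rfl, h'⟩
    refine ⟨x + x', y + y', ?_, ?_⟩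
    · ext <;> simp <;> ring
    · have e : A * (x + x') + B * (y + y') = A * x + B * y + (A * x' + B * y') := by ring
      rw [e]; exact dvd_add h h'
  neg_mem' := by
    rintro _ ⟨x, y, rfl, h⟩
    refine ⟨-x, -y, ?_, ?_⟩
    · ext <;> simp <;> ring
    · have e : A * -x + B * -y = -(A * x + B * y) := by ring
      rw [e]; exact h.neg_right

lemma mem_rotLat {A B k : ℤ} {m : ℤ × ℤ} :
    m ∈ rotLat A B k ↔ ∃ x y : ℤ, m = (x + y, x - y) ∧ k ∣ A * x + B * y := Iff.rfl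

lemma rotLat_parity {A B k : ℤ} {m : ℤ × ℤ} (hm : m ∈ rotLat A B k) : ∃ z, m.1 = m.2 + 2 * z := by
  obtain ⟨x, y, rfl, _⟩ := hm
  exact ⟨y, by simp only; ring⟩

/-- `gcd(A, B, k) = 1` -/
def Cop (A B k : ℤ) : Prop := ∃ x y : ℤ, k ∣ A * x + B * y - 1

/-- a primitive vector of the lattice `k ∣ A x + B y` and a complement -/
lemma exists_prim (A B k : ℤ) :
    ∃ A' B' C D : ℤ, A' * C + B' * D = 1 ∧ k ∣ A * B' + B * (-A') := by
  by_cases h : Int.gcd A B = 0
  · rw [Int.gcd_eq_zero_iff] at h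
    exact ⟨1, 0, 1, 0, by norm_num, by rw [h.1, h.2]; simp⟩
  · obtain ⟨A', hA'⟩ : (Int.gcd A B : ℤ) ∣ A := Int.gcd_dvd_left ..
    obtain ⟨B', hB'⟩ : (Int.gcd A B : ℤ) ∣ B := Int.gcd_dvd_right ..
    have h2 := Int.gcd_eq_gcd_ab A B
    set g : ℤ := (Int.gcd A B : ℤ) with hg
    have hg0 : g ≠ 0 := by
      intro h3; apply h; rw [hg] at h3; exact_mod_cast h3
    refine ⟨A', B', Int.gcdA A B, Int.gcdB A B, ?_, ?_⟩
    · have h4 : g * (A' * Int.gcdA A B + B' * Int.gcdB A B) = g * 1 := by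
        calc g * (A' * Int.gcdA A B + B' * Int.gcdB A B)
            = (g * A') * Int.gcdA A B + (g * B') * Int.gcdB A B := by ring
          _ = A * Int.gcdA A B + B * Int.gcdB A B := by rw [← hA', ← hB']
          _ = g := h2.symm
          _ = g * 1 := by ring
      exact mul_left_cancel₀ hg0 h4
    · have : A * B' + B * (-A') = 0 := by
        have h5 : A * B' + B * (-A') = (g * A') * B' + (g * B') * (-A') := by
          rw [← hA', ← hB']
        rw [h5]; ring
      rw [this]; exact dvd_zero k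

section

variable {A B k p q r h : ℤ}

/-- the area of the basis -/
lemma box_area (hk : 0 < k) (hc : Cop A B k) (Bx : IsBox (rotLat A B k) p q r h) :
    p * h + q * r = 2 * k := by
  obtain ⟨x1, y1, e1, d1⟩ := Bx.mem1
  obtain ⟨x2, y2, e2, d2⟩ := Bx.mem2
  rw [Prod.mk.injEq] at e1 e2
  -- `k` divides the determinant
  have h1 : k ∣ x2 * y1 - x1 * y2 := by
    obtain ⟨x0, y0, h0⟩ := hc
    have e : x2 * y1 - x1 * y2 =
        ((A * x2 + B * y2) * y1 - (A * x1 + B * y1) * y2) * x0 +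
        ((A * x1 + B * y1) * x2 - (A * x2 + B * y2) * x1) * y0 -
        (A * x0 + B * y0 - 1) * (x2 * y1 - x1 * y2) := by ring
    rw [e]
    exact dvd_sub (dvd_add ((dvd_sub (d2.mul_right y1) (d1.mul_right y2)).mul_right x0)
      ((dvd_sub (d1.mul_right x2) (d2.mul_right x1)).mul_right y0))
      (h0.mul_right (x2 * y1 - x1 * y2))
  -- the determinant divides `k`
  have h2 : x2 * y1 - x1 * y2 ∣ k := by
    obtain ⟨A', B', C, D, hCD, hAB⟩ := exists_prim A B k
    obtain ⟨i, j, hij⟩ := Bx.span (B' + (-A'), B' - (-A')) ⟨B', -A', rfl, hAB⟩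
    obtain ⟨i', j', hij'⟩ := Bx.span (k * C + k * D, k * C - k * D)
      ⟨k * C, k * D, rfl, ⟨A * C + B * D, by ring⟩⟩
    rw [Prod.mk.injEq] at hij hij'
    have f1 : B' = i * x1 + j * x2 := by
      have : 2 * B' = 2 * (i * x1 + j * x2) := by
        have e3 : p = x1 + y1 := e1.1
        have e4 : -q = x1 - y1 := e1.2
        have e5 : r = x2 + y2 := e2.1
        have e6 : h = x2 - y2 := e2.2
        linear_combination hij.1 + hij.2 + i * e3 + i * e4 + j * e5 + j * e6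
      linarith
    have f2 : -A' = i * y1 + j * y2 := by
      have : 2 * (-A') = 2 * (i * y1 + j * y2) := by
        have e3 : p = x1 + y1 := e1.1
        have e4 : -q = x1 - y1 := e1.2
        have e5 : r = x2 + y2 := e2.1
        have e6 : h = x2 - y2 := e2.2
        linear_combination hij.1 - hij.2 + i * e3 - i * e4 + j * e5 - j * e6
      linarith
    have f3 : k * C = i' * x1 + j' * x2 := by
      have : 2 * (k * C) = 2 * (i' * x1 + j' * x2) := by
        have e3 : p = x1 + y1 := e1.1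
        have e4 : -q = x1 - y1 := e1.2
        have e5 : r = x2 + y2 := e2.1
        have e6 : h = x2 - y2 := e2.2
        linear_combination hij'.1 + hij'.2 + i' * e3 + i' * e4 + j' * e5 + j' * e6
      linarith
    have f4 : k * D = i' * y1 + j' * y2 := by
      have : 2 * (k * D) = 2 * (i' * y1 + j' * y2) := by
        have e3 : p = x1 + y1 := e1.1
        have e4 : -q = x1 - y1 := e1.2
        have e5 : r = x2 + y2 := e2.1
        have e6 : h = x2 - y2 := e2.2
        linear_combination hij'.1 - hij'.2 + i' * e3 - i' * e4 + j' * e5 - j' * e6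
      linarith
    refine ⟨j * i' - i * j', ?_⟩
    calc k = B' * (k * D) - (-A') * (k * C) := by linear_combination (-k) * hCD
      _ = (x2 * y1 - x1 * y2) * (j * i' - i * j') := by rw [f1, f2, f3, f4]; ring
  have h3 : p * h + q * r = 2 * (x2 * y1 - x1 * y2) := by
    have e3 : p = x1 + y1 := e1.1
    have e4 : q = y1 - x1 := by linarith [e1.2]
    have e5 : r = x2 + y2 := e2.1
    have e6 : h = x2 - y2 := e2.2
    rw [e3, e4, e5, e6]; ring
  have h4 : 0 ≤ p * h + q * r := by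
    have := mul_nonneg Bx.hp Bx.hh
    have := mul_nonneg Bx.hq Bx.hr
    linarith
  have h5 : k ≤ |x2 * y1 - x1 * y2| := by
    have h6 : x2 * y1 - x1 * y2 ≠ 0 := by
      intro h7; rw [h7, zero_dvd_iff] at h2; omega
    exact Int.le_of_dvd (abs_pos.2 h6) ((dvd_abs _ _).2 h1)
  have h6 : |x2 * y1 - x1 * y2| ≤ k := Int.le_of_dvd hk ((abs_dvd _ _).2 h2)
  have h7 : |x2 * y1 - x1 * y2| = x2 * y1 - x1 * y2 := abs_of_nonneg (by linarith)
  linarith

/-- the quotient is cyclic -/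
lemma box_not_even (Bx : IsBox (rotLat A B k) p q r h) {x1 y1 x2 y2 : ℤ}
    (e1 : p = x1 + y1) (e2 : -q = x1 - y1) (e3 : r = x2 + y2) (e4 : h = x2 - y2) :
    ¬ (2 ∣ x1 ∧ 2 ∣ y1 ∧ 2 ∣ x2 ∧ 2 ∣ y2) := by
  rintro ⟨⟨x1', rfl⟩, ⟨y1', rfl⟩, ⟨x2', rfl⟩, ⟨y2', rfl⟩⟩
  obtain ⟨A', B', C, D, hCD, hAB⟩ := exists_prim A B k
  obtain ⟨i, j, hij⟩ := Bx.span (B' + (-A'), B' - (-A')) ⟨B', -A', rfl, hAB⟩
  rw [Prod.mk.injEq] at hij
  have f1 : B' = 2 * (i * x1' + j * x2') := by
    have : 2 * B' = 2 * (2 * (i * x1' + j * x2')) := by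
      linear_combination hij.1 + hij.2 + i * e1 + i * e2 + j * e3 + j * e4
    linarith
  have f2 : -A' = 2 * (i * y1' + j * y2') := by
    have : 2 * (-A') = 2 * (2 * (i * y1' + j * y2')) := by
      linear_combination hij.1 - hij.2 + i * e1 - i * e2 + j * e3 - j * e4
    linarith
  have f3 : A' = -(2 * (i * y1' + j * y2')) := by linarith
  rw [f1, f3] at hCD
  have : 2 * ((i * x1' + j * x2') * D - (i * y1' + j * y2') * C) = 1 := by
    linear_combination hCD
  omega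

/-- **Necessary condition for coverings.** -/
theorem nec_arith {t : ℤ} (hk : 0 < k) (hc : Cop A B k) (hM : Cov (rotLat A B k) t) :
    2 * k ≤ t ^ 2 ∧
      ∀ m d : ℤ, t = 2 * m → k + d = 2 * m ^ 2 → d < m → 2 ∣ d ∧ (Odd m → 4 ∣ d) := by
  have ht := hM.pos
  obtain ⟨p, q, r, h, Bx, hpr, hqt, hht⟩ := exists_box hM
  have harea := box_area hk hc Bx
  have hp := Bx.hp
  have hq := Bx.hq
  have hr := Bx.hr
  have hh := Bx.hh
  have hle : p * h + q * r ≤ (p + r) * t := by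
    have h1 : p * h ≤ p * t := mul_le_mul_of_nonneg_left hht hp
    have h2 : q * r ≤ t * r := mul_le_mul_of_nonneg_right hqt hr
    linarith
  refine ⟨?_, ?_⟩
  · have : (p + r) * t ≤ t * t := mul_le_mul_of_nonneg_right hpr ht.le
    rw [pow_two]; linarith
  intro m d htm hkd hdm
  subst htm
  have hm : 0 < m := by omega
  have hw : p + r = 2 * m := by
    by_contra hcon
    have h1 : p + r ≤ 2 * m - 1 := by omega
    have h2 : (p + r) * (2 * m) ≤ (2 * m - 1) * (2 * m) :=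
      mul_le_mul_of_nonneg_right h1 (by omega)
    nlinarith
  obtain ⟨y, hy⟩ : ∃ y, y = 2 * m - h := ⟨_, rfl⟩
  obtain ⟨x, hx⟩ : ∃ x, x = 2 * m - q := ⟨_, rfl⟩
  have hy0 : 0 ≤ y := by omega
  have hx0 : 0 ≤ x := by omega
  have hsum : p * y + r * x = 2 * d := by
    have hr' : r = 2 * m - p := by linarith
    have h' : h = 2 * m - y := by linarith
    have hq' : q = 2 * m - x := by linarith
    rw [h', hq', hr'] at harea
    rw [hr']
    have : k = 2 * m ^ 2 - d := by linarith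
    rw [this] at harea
    linear_combination -harea
  obtain ⟨x1, y1, e1, -⟩ := Bx.mem1
  obtain ⟨x2, y2, e2, -⟩ := Bx.mem2
  rw [Prod.mk.injEq] at e1 e2
  have hne := box_not_even Bx e1.1 e1.2 e2.1 e2.2
  obtain ⟨e11, e12⟩ := e1
  obtain ⟨e21, e22⟩ := e2
  have hcase : x = 0 ∨ y = 0 := by
    by_contra hcon
    rw [not_or] at hcon
    have h1 : 1 ≤ x := by omega
    have h2 : 1 ≤ y := by omega
    have h3 : p * 1 ≤ p * y := mul_le_mul_of_nonneg_left h2 hp
    have h4 : r * 1 ≤ r * x := mul_le_mul_of_nonneg_left h1 hr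
    omega
  rcases hcase with hx1 | hy1
  · -- `q = 2 m`
    obtain ⟨p', hp'⟩ : ∃ p', p = 2 * p' := ⟨x1 + m, by omega⟩
    obtain ⟨y', hy'⟩ : ∃ y', y = 2 * y' := ⟨p' + y2, by omega⟩
    subst hp' hy'
    rw [hx1, mul_zero, add_zero] at hsum
    have hd : d = 2 * (p' * y') := by linarith
    refine ⟨⟨_, hd⟩, ?_⟩
    rintro ⟨m', hm'⟩
    rcases Int.even_or_odd p' with ⟨p'', hp''⟩ | ⟨p'', hp''⟩
    · refine ⟨p'' * y', ?_⟩
      rw [hd, hp'']; ring
    rcases Int.even_or_odd y' with ⟨y'', hy''⟩ | ⟨y'', hy''⟩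
    · refine ⟨p' * y'', ?_⟩
      rw [hd, hy'']; ring
    exfalso
    apply hne
    refine ⟨?_, ?_, ?_, ?_⟩ <;> omega
  · -- `h = 2 m`
    obtain ⟨r', hr'⟩ : ∃ r', r = 2 * r' := ⟨y2 + m, by omega⟩
    obtain ⟨x', hx'⟩ : ∃ x', x = 2 * x' := ⟨r' + x1, by omega⟩
    subst hr' hx'
    rw [hy1, mul_zero, zero_add] at hsum
    have hd : d = 2 * (r' * x') := by linarith
    refine ⟨⟨_, hd⟩, ?_⟩
    rintro ⟨m', hm'⟩
    rcases Int.even_or_odd r' with ⟨r'', hr''⟩ | ⟨r'', hr''⟩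
    · refine ⟨r'' * x', ?_⟩
      rw [hd, hr'']; ring
    rcases Int.even_or_odd x' with ⟨x'', hx''⟩ | ⟨x'', hx''⟩
    · refine ⟨r' * x'', ?_⟩
      rw [hd, hx'']; ring
    exfalso
    apply hne
    refine ⟨?_, ?_, ?_, ?_⟩ <;> omega

end

end Pool.Agent.Q153.SpanTwo
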