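import Mathlib

/-!
# Signed sumsets, the function `φ_±(G, [0,s])` and the admissible pairs `(t, k)`
-/

set_option autoImplicit false

namespace Pool.Agent.Q153.SpanTwo

/-- The signed sumset `[0,s]_± A`: all sums `∑_{a ∈ A} c_a a` with integers `c_a` such that
`∑ |c_a| ≤ s`. -/
def signedSumset {G : Type*} [AddCommGroup G] (s : ℕ) (A : Finset G) : Set G :=
  {g | ∃ c : G → ℤ, ∑ a ∈ A, |c a| ≤ s ∧ ∑ a ∈ A, c a • a = g}

/-- `φ_±(G, [0,s])`: the least size of a set `A ⊆ G` with `[0,s]_± A = G`. -/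
noncomputable def phi (G : Type*) [AddCommGroup G] (s : ℕ) : ℕ :=
  sInf {m | ∃ A : Finset G, A.card = m ∧ signedSumset s A = Set.univ}

/-- The admissible pairs `(t, k)`: `2 k ≤ t ^ 2` and moreover, if `t = 2 m` is even and
`k = 2 m ^ 2 - d` with `d < m`, then `d` is even, and `d` is divisible by `4` if `m` is odd. -/
def InK (t k : ℕ) : Prop :=
  2 * k ≤ t ^ 2 ∧
    ∀ m d : ℕ, t = 2 * m → k + d = 2 * m ^ 2 → d < m → 2 ∣ d ∧ (Odd m → 4 ∣ d)

end Pool.Agent.Q153.SpanTwo
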