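import Pool.Agent.Q153.SpanTwo.Near
import Pool.Agent.Q153.SpanTwo.Defs

/-!
# Lattices that cover, and spanning pairs
-/

set_option autoImplicit false

namespace Pool.Agent.Q153.SpanTwo

/-- a covering lattice spanned by (the rotations of) `(x1, y1)` and `(x2, y2)`, with a unimodular
pair `w, c` such that `k` divides the determinants of `w` with the two vectors -/
def Good (t k : ℤ) : Prop :=
  ∃ x1 y1 x2 y2 w1 w2 c1 c2 : ℤ, 0 ≤ x1 + y1 ∧ 0 ≤ x2 + y2 ∧
    y1 - x1 ≤ t ∧ x2 - y2 ≤ t ∧ (x1 + y1) + (x2 + y2) ≤ t ∧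
    0 < (x1 + y1) * (x2 - y2) + (y1 - x1) * (x2 + y2) ∧
    w1 * c2 - w2 * c1 = 1 ∧ k ∣ w1 * y1 - w2 * x1 ∧ k ∣ w1 * y2 - w2 * x2

lemma Good.mono {t t' k : ℤ} (h : Good t k) (ht : t ≤ t') : Good t' k := by
  obtain ⟨x1, y1, x2, y2, w1, w2, c1, c2, h1, h2, h3, h4, h5, h6, h7, h8, h9⟩ := h
  exact ⟨x1, y1, x2, y2, w1, w2, c1, c2, h1, h2, by omega, by omega, by omega, h6, h7, h8, h9⟩

lemma good_odd (m : ℕ) (k : ℤ) (hk : 1 ≤ k) (h : k ≤ 2 * (m : ℤ) ^ 2 + 2 * m) :
    Good (2 * (m : ℤ) + 1) k := by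
  induction m with
  | zero => simp at h; omega
  | succ m ih =>
    push_cast at h ⊢
    obtain ⟨M, hM⟩ : ∃ M : ℤ, M = (m : ℤ) + 1 := ⟨_, rfl⟩
    rw [← hM] at h ⊢
    have hM1 : 1 ≤ M := by omega
    have hm : (m : ℤ) = M - 1 := by omega
    by_cases h1 : 2 * M ^ 2 + M ≤ k
    · obtain ⟨p, hp⟩ : ∃ p, k = 2 * M ^ 2 + M + p := ⟨k - (2 * M ^ 2 + M), by ring⟩
      have hp0 : 0 ≤ p := by linarith
      have hpM : p ≤ M := by linarith
      refine ⟨p - M, p + M, 2 * M + 1 - p, -p, M + 1, M, 1, 1, by omega, by omega, by omega,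
        by omega, by omega, ?_, by ring, ⟨1, by rw [hp]; ring⟩, ⟨-1, by rw [hp]; ring⟩⟩
      have : (p - M + (p + M)) * (2 * M + 1 - p - -p) + (p + M - (p - M)) * (2 * M + 1 - p + -p)
        = 2 * k := by rw [hp]; ring
      omega
    by_cases h2 : 2 * M ^ 2 ≤ k
    · obtain ⟨p, hp⟩ : ∃ p, k = 2 * M ^ 2 + M - p := ⟨2 * M ^ 2 + M - k, by ring⟩
      have hp0 : 0 ≤ p := by linarith
      have hpM : p ≤ M := by linarith
      refine ⟨p - M, p + M, 2 * M - p, 1 - p, M, M + 1, -1, -1, by omega, by omega, by omega,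
        by omega, by omega, ?_, by ring, ⟨1, by rw [hp]; ring⟩, ⟨-1, by rw [hp]; ring⟩⟩
      have : (p - M + (p + M)) * (2 * M - p - (1 - p)) + (p + M - (p - M)) * (2 * M - p + (1 - p))
        = 2 * k := by rw [hp]; ring
      omega
    by_cases h3 : 2 * M ^ 2 - M - 1 ≤ k
    · obtain ⟨p, hp⟩ : ∃ p, k = 2 * M ^ 2 - M - 1 + p := ⟨k - (2 * M ^ 2 - M - 1), by ring⟩
      have hp0 : 0 ≤ p := by linarith
      have hpM : p ≤ M := by linarith
      refine ⟨p - M + 1, p + M - 1, 2 * M - p, 1 - p, M + 1, M, 1, 1, by omega, by omega,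
        by omega, by omega, by omega, ?_, by ring, ⟨1, by rw [hp]; ring⟩,
        ⟨-1, by rw [hp]; ring⟩⟩
      have : (p - M + 1 + (p + M - 1)) * (2 * M - p - (1 - p)) +
        (p + M - 1 - (p - M + 1)) * (2 * M - p + (1 - p)) = 2 * k := by rw [hp]; ring
      omega
    have hM2 : 2 ≤ M := by
      by_contra hcon
      have : M = 1 := by omega
      rw [this] at h3; norm_num at h3; omega
    by_cases h4 : 2 * M ^ 2 - 2 * M - 1 ≤ k
    · obtain ⟨p, hp⟩ : ∃ p, k = 2 * M ^ 2 - M - 1 - p := ⟨2 * M ^ 2 - M - 1 - k, by ring⟩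
      have hp0 : 0 ≤ p := by linarith
      have hpM : p ≤ M := by linarith
      refine ⟨p - M + 1, p + M - 1, 2 * M - 1 - p, 2 - p, M, M + 1, -1, -1, by omega, by omega,
        by omega, by omega, by omega, ?_, by ring, ⟨1, by rw [hp]; ring⟩,
        ⟨-1, by rw [hp]; ring⟩⟩
      have : (p - M + 1 + (p + M - 1)) * (2 * M - 1 - p - (2 - p)) +
        (p + M - 1 - (p - M + 1)) * (2 * M - 1 - p + (2 - p)) = 2 * k := by rw [hp]; ring
      omega
    · refine (ih ?_).mono (by omega)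
      rw [hm]
      have : 2 * (M - 1) ^ 2 + 2 * (M - 1) = 2 * M ^ 2 - 2 * M := by ring
      omega

/-- all `k` with `InK t k` are good -/
theorem good_of_inK {t k : ℕ} (hk : 1 ≤ k) (h : InK t k) : Good t k := by
  obtain ⟨h1, h2⟩ := h
  rcases Nat.even_or_odd' t with ⟨m, rfl | rfl⟩
  · -- `t = 2 m`
    have hk' : (1 : ℤ) ≤ k := by exact_mod_cast hk
    have h1' : 2 * (k : ℤ) ≤ (2 * m) ^ 2 := by exact_mod_cast h1
    push_cast
    obtain ⟨M, hM⟩ : ∃ M : ℤ, M = (m : ℤ) := ⟨_, rfl⟩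
    have hM1 : 1 ≤ M := by
      by_contra hcon
      have : (m : ℤ) = 0 := by omega
      rw [this] at h1'; norm_num at h1'; omega
    by_cases h3 : (k : ℤ) ≤ 2 * M ^ 2 - 2 * M
    · obtain ⟨m', rfl⟩ : ∃ m', m = m' + 1 := ⟨m - 1, by omega⟩
      refine (good_odd m' k hk' ?_).mono (by push_cast; omega)
      have : (m' : ℤ) = M - 1 := by push_cast at hM; omega
      rw [this]
      have : 2 * (M - 1) ^ 2 + 2 * (M - 1) = 2 * M ^ 2 - 2 * M := by ring
      omega
    by_cases h4 : (k : ℤ) ≤ 2 * M ^ 2 - M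
    · obtain ⟨p, hp⟩ : ∃ p, (k : ℤ) = 2 * M ^ 2 - M - p := ⟨2 * M ^ 2 - M - k, by ring⟩
      have hp0 : 0 ≤ p := by linarith
      have hpM : p ≤ M - 1 := by linarith
      rw [← hM]
      refine ⟨p - M, p + M, 2 * M - 1 - p, -p, M - 1, M, -1, -1, by omega, by omega, by omega,
        by omega, by omega, ?_, by ring, ⟨1, by rw [hp]; ring⟩, ⟨-1, by rw [hp]; ring⟩⟩
      have : (p - M + (p + M)) * (2 * M - 1 - p - -p) + (p + M - (p - M)) * (2 * M - 1 - p + -p)
        = 2 * k := by rw [hp]; ring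
      omega
    · obtain ⟨d, hd⟩ : ∃ d : ℕ, k + d = 2 * m ^ 2 := by
        refine ⟨2 * m ^ 2 - k, ?_⟩
        have : 2 * k ≤ 4 * m ^ 2 := by rw [mul_pow] at h1; norm_num at h1; exact h1
        omega
      have hdz : (k : ℤ) = 2 * M ^ 2 - d := by
        rw [hM]; linarith [(by exact_mod_cast hd : (k : ℤ) + d = 2 * (m : ℤ) ^ 2)]
      have hdm : d < m := by
        have : (d : ℤ) < m := by rw [← hM]; linarith
        exact_mod_cast this
      obtain ⟨⟨e, he⟩, hodd⟩ := h2 m d rfl hd hdm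
      rcases Nat.even_or_odd m with ⟨m', hm'⟩ | hmodd
      · -- `m` even
        have hM' : M = m' + m' := by rw [hM, hm']; push_cast; ring
        have hk2 : (k : ℤ) = 2 * M ^ 2 - 2 * e := by rw [hdz, he]; push_cast; ring
        rw [← hM]
        have he2 : 2 * (e : ℤ) < M := by rw [hM]; exact_mod_cast he ▸ hdm
        refine ⟨1 - M, 1 + M, 2 * M - 1 - e, e - 1, 1 - M, 1 + M, -m', 1 + m', by omega, by omega,
          by omega, by omega, by omega, ?_, by rw [hM']; ring, ⟨0, by ring⟩,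
          ⟨-1, by rw [hk2]; ring⟩⟩
        have : (1 - M + (1 + M)) * (2 * M - 1 - e - (e - 1)) +
          (1 + M - (1 - M)) * (2 * M - 1 - e + (e - 1)) = 2 * (k : ℤ) := by rw [hk2]; ring
        omega
      · obtain ⟨y, hy⟩ := hodd hmodd
        rcases Nat.eq_zero_or_pos d with hd0 | hd0
        · have hk2 : (k : ℤ) = 2 * M ^ 2 := by rw [hdz, hd0]; simp
          rw [← hM]
          refine ⟨1 - M, 1 + M, 2 * M - 1, -1, 2 * M - 1, -1, 1, 0, by omega, by omega,
            by omega, by omega, by omega, ?_, by ring, ⟨1, by rw [hk2]; ring⟩, ⟨0, by ring⟩⟩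
          have : (1 - M + (1 + M)) * (2 * M - 1 - (-1)) +
            (1 + M - (1 - M)) * (2 * M - 1 + (-1)) = 2 * (k : ℤ) := by rw [hk2]; ring
          omega
        · obtain ⟨m', hm'⟩ := hmodd
          have hM' : M = 2 * m' + 1 := by rw [hM, hm']; push_cast; ring
          have hk2 : (k : ℤ) = 2 * M ^ 2 - 4 * y := by rw [hdz, hy]; push_cast; ring
          rw [← hM]
          have hy1 : 4 * (y : ℤ) < M := by rw [hM]; exact_mod_cast hy ▸ hdm
          have hy2 : 1 ≤ (y : ℤ) := by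
            have : 0 < y := by omega
            exact_mod_cast this
          obtain ⟨c1, c2, hc⟩ : ∃ c1 c2 : ℤ, (2 - M) * c2 - (2 + M) * c1 = 1 := by
            rcases Nat.even_or_odd' m' with ⟨z, hz | hz⟩
            · refine ⟨-z, z + 1, ?_⟩
              rw [hM', hz]; push_cast; ring
            · refine ⟨z, -1 - z, ?_⟩
              rw [hM', hz]; push_cast; ring
          refine ⟨2 - M, 2 + M, 2 * M - 2 - y, y - 2, 2 - M, 2 + M, c1, c2, by omega, by omega,
            by omega, by omega, by omega, ?_, hc, ⟨0, by ring⟩, ⟨-1, by rw [hk2]; ring⟩⟩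
          have : (2 - M + (2 + M)) * (2 * M - 2 - y - (y - 2)) +
            (2 + M - (2 - M)) * (2 * M - 2 - y + (y - 2)) = 2 * (k : ℤ) := by rw [hk2]; ring
          omega
  · push_cast
    refine good_odd m k (by exact_mod_cast hk) ?_
    have : 2 * (k : ℤ) ≤ (2 * m + 1) ^ 2 := by exact_mod_cast h1
    have h3 : (2 * (m : ℤ) + 1) ^ 2 = 2 * (2 * (m : ℤ) ^ 2 + 2 * m) + 1 := by ring
    omega

/-- squares around a good lattice cover -/
lemma near_of_box {n s t p q r h : ℤ} (hn : 0 < n) (hp : 0 ≤ p) (hr : 0 ≤ r)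
    (hdet : 0 < p * h + q * r) (hqt : q ≤ t) (hht : h ≤ t) (hprt : p + r ≤ t)
    (ht : n * t ≤ 2 * s + 1) (U V : ℤ) :
    ∃ i j : ℤ, |U - n * (i * p + j * r)| ≤ s ∧ |V - n * (-(i * q) + j * h)| ≤ s := by
  -- the window of a coordinate
  have key : ∀ U X u : ℤ, X = -((n * t - 2 * U) / (2 * n)) → X ≤ u → u < X + t →
      |U - n * u| ≤ s := by
    intro U X u hX h1 h2
    have h3 := Int.ediv_mul_le (n * t - 2 * U) (show (2 * n : ℤ) ≠ 0 by omega)
    have h4 := Int.lt_ediv_add_one_mul_self (n * t - 2 * U) (show 0 < 2 * n by omega)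
    set z := (n * t - 2 * U) / (2 * n) with hz
    have h5 : n * (-z) ≤ n * u := mul_le_mul_of_nonneg_left (hX ▸ h1) hn.le
    have h6 : n * u ≤ n * (-z + t - 1) := mul_le_mul_of_nonneg_left (by omega) hn.le
    rw [abs_le]
    constructor
    · have : 2 * (n * u) < 2 * U + n * t := by nlinarith
      have : 2 * (n * u) < 2 * U + (2 * s + 1) := by linarith
      omega
    · have : 2 * (U - n * u) ≤ n * t := by nlinarith
      omega
  obtain ⟨i, j, h1, h2, h3, h4⟩ := strip p q r h (-((n * t - 2 * U) / (2 * n)))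
    (-((n * t - 2 * V) / (2 * n))) t hp hr hdet hqt hht
  exact ⟨i, j, key U _ _ rfl h1 (by omega), key V _ _ rfl h3 h4⟩

/-- windows of the perfect lattice -/
lemma perfect_window {t X Y : ℤ} (ht : 1 ≤ t) (hodd : Odd t) (hXY : 2 ∣ X - Y) :
    ∃ i j : ℤ, X ≤ i * t + j ∧ i * t + j < X + t ∧ Y ≤ i - j * t ∧ i - j * t < Y + t := by
  obtain ⟨a, b, h1, h2, h3, h4⟩ := strip 1 t (t - 1) (t + 1) X Y (t + 1) (by norm_num) (by omega)
    (by nlinarith) (by omega) le_rfl
  obtain ⟨i, j, hi, hj⟩ : ∃ i j : ℤ, i = b ∧ j = a - b := ⟨_, _, rfl, rfl⟩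
  have e1 : a * 1 + b * (t - 1) = i * t + j := by rw [hi, hj]; ring
  have e2 : -(a * t) + b * (t + 1) = i - j * t := by rw [hi, hj]; ring
  rw [e1] at h1 h2
  rw [e2] at h3 h4
  by_cases h5 : i - j * t < Y + t
  · exact ⟨i, j, h1, by omega, h3, h5⟩
  have h6 : i - j * t = Y + t := by omega
  refine ⟨i, j + 1, by omega, ?_, ?_, ?_⟩
  · by_contra hcon
    have h7 : i * t + j = X + t - 1 := by omega
    obtain ⟨c, rfl⟩ := hodd
    obtain ⟨z, hz⟩ := hXY
    have : X + (2 * c + 1) - 1 - (Y + (2 * c + 1)) = 2 * ((i + j) * c + j) := by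
      rw [← h6, ← h7]; ring
    omega
  · have : i - (j + 1) * t = i - j * t - t := by ring
    omega
  · have : i - (j + 1) * t = i - j * t - t := by ring
    omega

lemma near_of_perfect {n s e : ℤ} (hn : 0 < n) (hn2 : Odd n) (he : 1 ≤ e) (hs : s + 1 = n * e)
    {U V : ℤ} (hUV : 2 ∣ U - V) :
    ∃ i j : ℤ, |U - n * (i * (2 * e - 1) + j)| ≤ s ∧ |V - n * (i - j * (2 * e - 1))| ≤ s := by
  have hbound : ∀ U : ℤ, U - (s + 1) < n * ((U - (s + 1)) / n + 1) ∧
      n * ((U - (s + 1)) / n) ≤ U - (s + 1) := by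
    intro U
    have h3 := Int.ediv_mul_le (U - (s + 1)) hn.ne'
    have h4 := Int.lt_ediv_add_one_mul_self (U - (s + 1)) hn
    constructor <;> linarith
  -- first kind of windows
  have k1 : ∀ U u : ℤ, (U - (s + 1)) / n + 1 ≤ u → u < (U - (s + 1)) / n + 1 + (2 * e - 1) →
      |U - n * u| ≤ s := by
    intro U u h1 h2
    obtain ⟨h3, h4⟩ := hbound U
    have h5 : n * ((U - (s + 1)) / n + 1) ≤ n * u := mul_le_mul_of_nonneg_left h1 hn.le
    have h6 : n * u ≤ n * ((U - (s + 1)) / n + 2 * e - 1) :=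
      mul_le_mul_of_nonneg_left (by omega) hn.le
    rw [abs_le]
    constructor <;> nlinarith
  -- second kind
  have k2 : ∀ U u : ℤ, ¬ n ∣ U - (s + 1) → (U - (s + 1)) / n + 2 ≤ u →
      u < (U - (s + 1)) / n + 2 + (2 * e - 1) → |U - n * u| ≤ s := by
    intro U u hndvd h1 h2
    obtain ⟨h3, h4⟩ := hbound U
    have h4' : n * ((U - (s + 1)) / n) < U - (s + 1) :=
      lt_of_le_of_ne h4 fun h => hndvd ⟨_, h.symm⟩
    have h5 : n * ((U - (s + 1)) / n + 2) ≤ n * u := mul_le_mul_of_nonneg_left h1 hn.le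
    have h6 : n * u ≤ n * ((U - (s + 1)) / n + 2 * e) :=
      mul_le_mul_of_nonneg_left (by omega) hn.le
    rw [abs_le]
    constructor <;> nlinarith
  have hodd : Odd (2 * e - 1) := ⟨e - 1, by ring⟩
  by_cases hpar : 2 ∣ ((U - (s + 1)) / n + 1) - ((V - (s + 1)) / n + 1)
  · obtain ⟨i, j, h1, h2, h3, h4⟩ := perfect_window (t := 2 * e - 1) (by omega) hodd hpar
    exact ⟨i, j, k1 U _ h1 h2, k1 V _ h3 h4⟩
  by_cases hU : n ∣ U - (s + 1)
  · by_cases hV : n ∣ V - (s + 1)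
    · exfalso
      apply hpar
      obtain ⟨x, hx⟩ := hU
      obtain ⟨y, hy⟩ := hV
      have e1 : (U - (s + 1)) / n = x := by rw [hx]; exact Int.mul_ediv_cancel_left _ hn.ne'
      have e2 : (V - (s + 1)) / n = y := by rw [hy]; exact Int.mul_ediv_cancel_left _ hn.ne'
      rw [e1, e2]
      have h5 : U - V = n * (x - y) := by linear_combination hx - hy
      rw [h5] at hUV
      rcases Int.prime_two.dvd_or_dvd hUV with h | h
      · obtain ⟨n', rfl⟩ := hn2
        omega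
      · obtain ⟨z, hz⟩ := h
        exact ⟨z, by linarith⟩
    · obtain ⟨i, j, h1, h2, h3, h4⟩ := perfect_window (t := 2 * e - 1)
        (X := (U - (s + 1)) / n + 1) (Y := (V - (s + 1)) / n + 2) (by omega) hodd (by omega)
      exact ⟨i, j, k1 U _ h1 h2, k2 V _ hV h3 h4⟩
  · obtain ⟨i, j, h1, h2, h3, h4⟩ := perfect_window (t := 2 * e - 1)
      (X := (U - (s + 1)) / n + 2) (Y := (V - (s + 1)) / n + 1) (by omega) hodd (by omega)
    exact ⟨i, j, k2 U _ hU h1 h2, k1 V _ h3 h4⟩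

end Pool.Agent.Q153.SpanTwo
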