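import Pool.Agent.Q153.SpanTwo.Families

/-!
# Spanning pairs in `ZMod n × ZMod (n k)`
-/

set_option autoImplicit false

namespace Pool.Agent.Q153.SpanTwo

/-- every element is `x a + y b` with `|x| + |y| ≤ s` -/
def Spans {G : Type*} [AddCommGroup G] (s : ℤ) (a b : G) : Prop :=
  ∀ g : G, ∃ x y : ℤ, |x| + |y| ≤ s ∧ x • a + y • b = g

section

variable {n k : ℕ}

lemma snd_comb {a b : ZMod n × ZMod (n * k)} {A B : ℤ} (hA : (A : ZMod (n * k)) = a.2)
    (hB : (B : ZMod (n * k)) = b.2) (x y : ℤ) :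
    (x • a + y • b).2 = ((A * x + B * y : ℤ) : ZMod (n * k)) := by
  rw [Prod.snd_add, Prod.smul_snd, Prod.smul_snd, ← hA, ← hB]
  push_cast
  rw [zsmul_eq_mul, zsmul_eq_mul]
  ring

/-- the relations are multiples of `n` -/
lemma dvd_of_rel {s : ℤ} {a b : ZMod n × ZMod (n * k)} (h : Spans s a b) {x y : ℤ}
    (hxy : x • a + y • b = 0) : (n : ℤ) ∣ x ∧ (n : ℤ) ∣ y := by
  -- reduction modulo `n`
  let π : ZMod (n * k) →+* ZMod n := ZMod.castHom (Dvd.intro k rfl) (ZMod n)
  have hπ : ∀ (x y : ℤ), π (x • a + y • b).2 = x * π a.2 + y * π b.2 := by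
    intro x y
    rw [Prod.snd_add, Prod.smul_snd, Prod.smul_snd, map_add, zsmul_eq_mul, zsmul_eq_mul, map_mul,
      map_mul, map_intCast, map_intCast]
  have hf : ∀ (x y : ℤ), (x • a + y • b).1 = x * a.1 + y * b.1 := by
    intro x y
    rw [Prod.fst_add, Prod.smul_fst, Prod.smul_fst, zsmul_eq_mul, zsmul_eq_mul]
  obtain ⟨x1, y1, -, e1⟩ := h (1, 0)
  obtain ⟨x2, y2, -, e2⟩ := h (0, 1)
  have f1 := hf x1 y1
  have f2 := hf x2 y2
  have f3 := hπ x1 y1
  have f4 := hπ x2 y2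
  have f5 := hf x y
  have f6 := hπ x y
  rw [e1] at f1 f3
  rw [e2] at f2 f4
  rw [hxy] at f5 f6
  simp only [map_zero, map_one, Prod.fst_zero, Prod.snd_zero] at f1 f2 f3 f4 f5 f6
  have hDE : (a.1 * π b.2 - π a.2 * b.1) * (x1 * y2 - x2 * y1) = 1 := by
    linear_combination (-(x2 * π a.2 + y2 * π b.2)) * f1 - f4 + (x1 * π a.2 + y1 * π b.2) * f2
  have hx : (x : ZMod n) * (a.1 * π b.2 - π a.2 * b.1) = 0 := by
    linear_combination b.1 * f6 - π b.2 * f5
  have hy : (y : ZMod n) * (a.1 * π b.2 - π a.2 * b.1) = 0 := by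
    linear_combination π a.2 * f5 - a.1 * f6
  constructor
  · rw [← ZMod.intCast_zmod_eq_zero_iff_dvd]
    calc (x : ZMod n) = x * ((a.1 * π b.2 - π a.2 * b.1) * (x1 * y2 - x2 * y1)) := by
          rw [hDE, mul_one]
      _ = (x * (a.1 * π b.2 - π a.2 * b.1)) * (x1 * y2 - x2 * y1) := by ring
      _ = 0 := by rw [hx, zero_mul]
  · rw [← ZMod.intCast_zmod_eq_zero_iff_dvd]
    calc (y : ZMod n) = y * ((a.1 * π b.2 - π a.2 * b.1) * (x1 * y2 - x2 * y1)) := by
          rw [hDE, mul_one]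
      _ = (y * (a.1 * π b.2 - π a.2 * b.1)) * (x1 * y2 - x2 * y1) := by ring
      _ = 0 := by rw [hy, zero_mul]

/-- from a spanning pair to a lattice -/
lemma near_of_spans (hn : 2 ≤ n) {s : ℤ} {a b : ZMod n × ZMod (n * k)} (h : Spans s a b) :
    ∃ A B : ℤ, Cop A B k ∧ Near (rotLat A B k) n s := by
  obtain ⟨A, hA⟩ := ZMod.intCast_surjective a.2
  obtain ⟨B, hB⟩ := ZMod.intCast_surjective b.2
  have hn0 : (n : ℤ) ≠ 0 := by omega
  refine ⟨A, B, ?_, ?_⟩
  · obtain ⟨x, y, -, e⟩ := h (0, 1)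
    refine ⟨x, y, ?_⟩
    have h1 := snd_comb hA hB x y
    rw [e] at h1
    have h2 : ((A * x + B * y - 1 : ℤ) : ZMod (n * k)) = 0 := by
      rw [Int.cast_sub, ← h1]; simp
    rw [ZMod.intCast_zmod_eq_zero_iff_dvd] at h2
    exact dvd_trans ⟨(n : ℤ), by push_cast; ring⟩ h2
  · intro U V hUV
    obtain ⟨Y0, hY0⟩ := hUV
    obtain ⟨X0, hX0⟩ : ∃ X0, X0 = V + Y0 := ⟨_, rfl⟩
    obtain ⟨x, y, hs, e⟩ := h (X0 • a + Y0 • b)
    have hz : (X0 - x) • a + (Y0 - y) • b = 0 := by
      rw [sub_smul, sub_smul]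
      have : X0 • a - x • a + (Y0 • b - y • b) = (X0 • a + Y0 • b) - (x • a + y • b) := by abel
      rw [this, e, sub_self]
    obtain ⟨⟨x', hx'⟩, ⟨y', hy'⟩⟩ := dvd_of_rel h hz
    refine ⟨(x' + y', x' - y'), ⟨x', y', rfl, ?_⟩, ?_, ?_⟩
    · have h1 := snd_comb hA hB (X0 - x) (Y0 - y)
      rw [hz] at h1
      have h2 := h1.symm
      rw [Prod.snd_zero, ZMod.intCast_zmod_eq_zero_iff_dvd, hx', hy'] at h2
      have h3 : ((n * k : ℕ) : ℤ) = n * k := by push_cast; ring
      rw [h3, show A * (n * x') + B * (n * y') = n * (A * x' + B * y') by ring] at h2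
      exact (mul_dvd_mul_iff_left hn0).1 h2
    · have : U - n * (x' + y') = x + y := by
        have : U = X0 + Y0 := by omega
        rw [this]; linear_combination hx' + hy'
      simp only
      rw [this]
      exact (abs_add_le x y).trans hs
    · have : V - n * (x' - y') = x - y := by
        have : V = X0 - Y0 := by omega
        rw [this]; linear_combination hx' - hy'
      simp only
      rw [this]
      exact (abs_sub x y).trans hs

/-- The condition on `(n, k, s)`. -/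
def Adm (n k s : ℕ) : Prop :=
  if Odd n ∧ n ∣ s + 1 then 2 * k ≤ (2 * ((s + 1) / n) - 1) ^ 2 + 1 else InK ((2 * s + 1) / n) k

/-- **Necessity.** -/
theorem adm_of_spans (hn : 2 ≤ n) (hk : 1 ≤ k) {s : ℕ} {a b : ZMod n × ZMod (n * k)}
    (h : Spans (s : ℤ) a b) : Adm n k s := by
  obtain ⟨A, B, hc, hnear⟩ := near_of_spans hn h
  have hk' : (0 : ℤ) < k := by exact_mod_cast hk
  have hn' : (0 : ℤ) < n := by omega
  unfold Adm
  split_ifs with hexc
  · obtain ⟨hodd, e, he⟩ := hexc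
    have he1 : 1 ≤ e := by
      rcases Nat.eq_zero_or_pos e with h0 | h0
      · rw [h0] at he; omega
      · exact h0
    have hdiv : (s + 1) / n = e := by rw [he]; exact Nat.mul_div_cancel_left e (by omega)
    rw [hdiv]
    obtain ⟨f, rfl⟩ : ∃ f, e = f + 1 := ⟨e - 1, by omega⟩
    have hsub : 2 * (f + 1) - 1 = 2 * f + 1 := by omega
    rw [hsub]
    have goal : 2 * (k : ℤ) ≤ (2 * f + 1) ^ 2 + 1 := by
      by_cases hcov : Cov (rotLat A B k) (2 * f + 1)
      · have := (nec_arith hk' hc hcov).1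
        linarith
      · have he' : (s : ℤ) + 1 = n * (f + 1) := by exact_mod_cast he
        obtain ⟨p, q, r, l, hp, hq, hr, hl, m1, m2, e1, e2⟩ := exceptional (t := 2 * (f : ℤ) + 1)
          (by omega) (by exact_mod_cast hodd) ⟨f, rfl⟩ hnear (by linear_combination 2 * he') hcov
        obtain ⟨x1, y1, g1, d1⟩ := m1
        obtain ⟨x2, y2, g2, d2⟩ := m2
        rw [Prod.mk.injEq] at g1 g2
        obtain ⟨x0, y0, h0⟩ := hc
        have hdet : (k : ℤ) ∣ x2 * y1 - x1 * y2 := by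
          have e : x2 * y1 - x1 * y2 =
              ((A * x2 + B * y2) * y1 - (A * x1 + B * y1) * y2) * x0 +
              ((A * x1 + B * y1) * x2 - (A * x2 + B * y2) * x1) * y0 -
              (A * x0 + B * y0 - 1) * (x2 * y1 - x1 * y2) := by ring
          rw [e]
          exact dvd_sub (dvd_add ((dvd_sub (d2.mul_right y1) (d1.mul_right y2)).mul_right x0)
            ((dvd_sub (d1.mul_right x2) (d2.mul_right x1)).mul_right y0))
            (h0.mul_right (x2 * y1 - x1 * y2))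
        have harea : p * l + q * r = 2 * (x2 * y1 - x1 * y2) := by
          have e3 : p = x1 + y1 := g1.1
          have e4 : q = y1 - x1 := by linarith [g1.2]
          have e5 : r = x2 + y2 := g2.1
          have e6 : l = x2 - y2 := g2.2
          rw [e3, e4, e5, e6]; ring
        have hpos : 0 < p * l + q * r := by positivity
        have hle : (k : ℤ) ≤ x2 * y1 - x1 * y2 := Int.le_of_dvd (by linarith) hdet
        have hr' : r = 2 * f + 1 + 1 - p := by linarith
        have hl' : l = 2 * f + 1 + 1 - q := by linarith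
        rw [hr', hl'] at harea
        have h5 : 0 ≤ (p - 1) * (q - 1) := mul_nonneg (by omega) (by omega)
        have h6 : 0 ≤ (2 * (f : ℤ) + 1 - p) * (2 * f + 1 - q) := mul_nonneg (by omega) (by omega)
        nlinarith
    exact_mod_cast goal
  · have hcov : Cov (rotLat A B k) (((2 * s + 1) / n : ℕ) : ℤ) := by
      set t := (2 * s + 1) / n with ht
      have h1 : 2 * s + 1 < n * (t + 1) := Nat.lt_mul_div_succ _ (by omega)
      have h1' : 2 * (s : ℤ) + 1 < n * (t + 1) := by exact_mod_cast h1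
      rcases Nat.even_or_odd n with hev | hodd
      · exact cov_of_even hn' (by exact_mod_cast hev.two_dvd) hnear (by linarith)
      · rcases Nat.even_or_odd t with ht2 | ht2
        · exact cov_of_odd_even hn' (by exact_mod_cast hodd) (by exact_mod_cast ht2.two_dvd) hnear
            h1'
        · refine cov_of_odd_odd hn' (by exact_mod_cast hodd) (by exact_mod_cast ht2) hnear ?_
          have h2 : 2 * s + 2 ≠ n * (t + 1) := by
            intro h2
            apply hexc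
            refine ⟨hodd, ?_⟩
            obtain ⟨c, hc⟩ := ht2
            refine ⟨c + 1, ?_⟩
            have h3 : 2 * (s + 1) = 2 * (n * (c + 1)) := by
              rw [hc] at h2; linarith
            omega
          have h3 : 2 * s + 2 < n * (t + 1) := by omega
          exact_mod_cast h3
    obtain ⟨h1, h2⟩ := nec_arith hk' hc hcov
    refine ⟨by exact_mod_cast h1, ?_⟩
    intro m d e1 e2 e3
    obtain ⟨h3, h4⟩ := h2 m d (by exact_mod_cast e1) (by exact_mod_cast e2) (by exact_mod_cast e3)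
    refine ⟨by exact_mod_cast h3, fun hodd => ?_⟩
    have := h4 (by exact_mod_cast hodd)
    exact_mod_cast this

/-- a spanning pair from a covering lattice -/
lemma spans_of_near {s w1 w2 c1 c2 x1 y1 x2 y2 : ℤ} (hwc : w1 * c2 - w2 * c1 = 1)
    (h1 : (k : ℤ) ∣ w1 * y1 - w2 * x1) (h2 : (k : ℤ) ∣ w1 * y2 - w2 * x2)
    (hnear : ∀ U V : ℤ, 2 ∣ U - V → ∃ i j : ℤ, |U - n * (i * (x1 + y1) + j * (x2 + y2))| ≤ s ∧
      |V - n * (-(i * (y1 - x1)) + j * (x2 - y2))| ≤ s) :
    ∃ a b : ZMod n × ZMod (n * k), Spans s a b := by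
  refine ⟨((c2 : ℤ), (-w2 : ℤ)), ((-c1 : ℤ), (w1 : ℤ)), ?_⟩
  rintro ⟨g1, g2⟩
  obtain ⟨G1, rfl⟩ := ZMod.intCast_surjective g1
  obtain ⟨G2, rfl⟩ := ZMod.intCast_surjective g2
  obtain ⟨v1, hv1⟩ : ∃ v, v = G1 * w1 + G2 * c1 := ⟨_, rfl⟩
  obtain ⟨v2, hv2⟩ : ∃ v, v = G1 * w2 + G2 * c2 := ⟨_, rfl⟩
  obtain ⟨i, j, hU, hV⟩ := hnear (v1 + v2) (v1 - v2) ⟨v2, by ring⟩
  refine ⟨v1 - n * (i * x1 + j * x2), v2 - n * (i * y1 + j * y2), ?_, ?_⟩
  · rw [abs_le] at hU hV
    have e1 : v1 + v2 - n * (i * (x1 + y1) + j * (x2 + y2)) =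
        (v1 - n * (i * x1 + j * x2)) + (v2 - n * (i * y1 + j * y2)) := by ring
    have e2 : v1 - v2 - n * (-(i * (y1 - x1)) + j * (x2 - y2)) =
        (v1 - n * (i * x1 + j * x2)) - (v2 - n * (i * y1 + j * y2)) := by ring
    rw [e1] at hU
    rw [e2] at hV
    generalize v1 - n * (i * x1 + j * x2) = X at hU hV ⊢
    generalize v2 - n * (i * y1 + j * y2) = Y at hU hV ⊢
    rcases abs_cases X with ⟨hX, _⟩ | ⟨hX, _⟩ <;> rcases abs_cases Y with ⟨hY, _⟩ | ⟨hY, _⟩ <;>
      rw [hX, hY] <;> linarith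
  · ext
    · rw [Prod.fst_add, Prod.smul_fst, Prod.smul_fst, zsmul_eq_mul, zsmul_eq_mul]
      simp only
      rw [← Int.cast_mul, ← Int.cast_mul, ← Int.cast_add, ← sub_eq_zero, ← Int.cast_sub,
        ZMod.intCast_zmod_eq_zero_iff_dvd]
      refine ⟨-(c2 * (i * x1 + j * x2) - c1 * (i * y1 + j * y2)), ?_⟩
      rw [hv1, hv2]
      linear_combination G1 * hwc
    · rw [Prod.snd_add, Prod.smul_snd, Prod.smul_snd, zsmul_eq_mul, zsmul_eq_mul]
      simp only
      rw [← Int.cast_mul, ← Int.cast_mul, ← Int.cast_add, ← sub_eq_zero, ← Int.cast_sub,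
        ZMod.intCast_zmod_eq_zero_iff_dvd]
      obtain ⟨z1, hz1⟩ := h1
      obtain ⟨z2, hz2⟩ := h2
      refine ⟨-(i * z1 + j * z2), ?_⟩
      rw [hv1, hv2]
      push_cast
      linear_combination G2 * hwc - n * i * hz1 - n * j * hz2

/-- **Sufficiency.** -/
theorem spans_of_adm (hn : 2 ≤ n) (hk : 1 ≤ k) {s : ℕ} (h : Adm n k s) :
    ∃ a b : ZMod n × ZMod (n * k), Spans (s : ℤ) a b := by
  have hn' : (0 : ℤ) < n := by omega
  have main : ∀ t : ℕ, n * t ≤ 2 * s + 1 → InK t k →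
      ∃ a b : ZMod n × ZMod (n * k), Spans (s : ℤ) a b := by
    intro t ht hK
    obtain ⟨x1, y1, x2, y2, w1, w2, c1, c2, h1, h2, h3, h4, h5, h6, h7, h8, h9⟩ :=
      good_of_inK hk hK
    refine spans_of_near h7 h8 h9 fun U V _ => ?_
    exact near_of_box hn' h1 h2 h6 h3 h4 h5 (by exact_mod_cast ht) U V
  unfold Adm at h
  split_ifs at h with hexc
  · obtain ⟨hodd, e, he⟩ := hexc
    have he1 : 1 ≤ e := by
      rcases Nat.eq_zero_or_pos e with h0 | h0
      · rw [h0] at he; omega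
      · exact h0
    have hdiv : (s + 1) / n = e := by rw [he]; exact Nat.mul_div_cancel_left e (by omega)
    rw [hdiv] at h
    obtain ⟨f, rfl⟩ : ∃ f, e = f + 1 := ⟨e - 1, by omega⟩
    have hsub : 2 * (f + 1) - 1 = 2 * f + 1 := by omega
    rw [hsub] at h
    by_cases h1 : 2 * k ≤ (2 * f + 1) ^ 2
    · refine main (2 * f + 1) ?_ ⟨h1, fun m d h2 => by omega⟩
      have : n * (2 * f + 1) + n = 2 * (n * (f + 1)) := by ring
      omega
    · have h2 : 2 * k = (2 * f + 1) ^ 2 + 1 := by omega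
      have h3 : (k : ℤ) = 2 * f ^ 2 + 2 * f + 1 := by
        have : 2 * (k : ℤ) = (2 * f + 1) ^ 2 + 1 := by exact_mod_cast h2
        linarith
      have he' : (s : ℤ) + 1 = n * (f + 1) := by exact_mod_cast he
      refine spans_of_near (s := s) (w1 := f + 1) (w2 := f) (c1 := 1) (c2 := 1) (x1 := -f)
        (y1 := f + 1) (x2 := f + 1) (y2 := f) (by ring) ⟨1, by rw [h3]; ring⟩ ⟨0, by ring⟩
        fun U V hUV => ?_
      obtain ⟨i, j, g1, g2⟩ := near_of_perfect (e := f + 1) hn' (by exact_mod_cast hodd) (by omega)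
        he' hUV
      refine ⟨j, i, ?_, ?_⟩
      · have e1 : j * (-(f : ℤ) + (f + 1)) + i * (f + 1 + f) = i * (2 * (f + 1) - 1) + j := by ring
        rw [e1]; exact g1
      · have e1 : -(j * ((f : ℤ) + 1 - -f)) + i * (f + 1 - f) = i - j * (2 * (f + 1) - 1) := by
          ring
        rw [e1]; exact g2
  · exact main _ (Nat.mul_div_le _ _) h

/-- **Characterization of the spanning pairs.** -/
theorem spans_iff (hn : 2 ≤ n) (hk : 1 ≤ k) (s : ℕ) :
    (∃ a b : ZMod n × ZMod (n * k), Spans (s : ℤ) a b) ↔ Adm n k s :=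
  ⟨fun ⟨_, _, h⟩ => adm_of_spans hn hk h, spans_of_adm hn hk⟩

end

end Pool.Agent.Q153.SpanTwo
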