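import Mathlib

/-!
# Lattice coverings of the plane by squares

For a subgroup `M` of `ℤ × ℤ`, `Cov M t` says that every `t × t` window of integer points meets
`M`. This holds if and only if `M` has a basis `(p, -q), (r, h)` with `p, q, r, h ≥ 0`,
`p + r ≤ t` and `q, h ≤ t`.
-/

set_option autoImplicit false

namespace Pool.Agent.Q153.SpanTwo

/-- The lattice points in a vertical strip of width `p + r` have vertical gaps `q` and `h`. -/
lemma strip (p q r h X Y H : ℤ) (hp : 0 ≤ p) (hr : 0 ≤ r)
    (hdet : 0 < p * h + q * r) (hqH : q ≤ H) (hhH : h ≤ H) :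
    ∃ i j : ℤ, X ≤ i * p + j * r ∧ i * p + j * r < X + (p + r) ∧
      Y ≤ -(i * q) + j * h ∧ -(i * q) + j * h < Y + H := by
  have hW : 0 < p + r := by
    rcases hp.lt_or_eq with h1 | h1
    · omega
    · rcases hr.lt_or_eq with h2 | h2
      · omega
      · rw [← h1, ← h2] at hdet; simp at hdet
  set W := p + r with hWdef
  -- the point of the digital line with `j - i = m`
  let i : ℤ → ℤ := fun m => -((m * r - X) / W)
  let v : ℤ → ℤ := fun m => -(i m * q) + (i m + m) * h
  have hi1 : ∀ m, X ≤ i m * W + m * r := by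
    intro m
    have := Int.ediv_mul_le (m * r - X) hW.ne'
    simp only [i]; linarith
  have hi2 : ∀ m, i m * W + m * r < X + W := by
    intro m
    have := Int.lt_ediv_add_one_mul_self (m * r - X) hW
    simp only [i]; linarith
  have hstep : ∀ m, v (m + 1) ≤ v m + H := by
    intro m
    have h1 := hi1 m
    have h2 := hi2 m
    have h3 := hi1 (m + 1)
    have h4 := hi2 (m + 1)
    have h5 : i (m + 1) ≤ i m := by
      by_contra hcon
      have : i m + 1 ≤ i (m + 1) := by omega
      nlinarith
    have h6 : i m - 1 ≤ i (m + 1) := by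
      by_contra hcon
      have : i (m + 1) ≤ i m - 2 := by omega
      nlinarith
    have h7 : i (m + 1) = i m ∨ i (m + 1) = i m - 1 := by omega
    simp only [v]
    rcases h7 with h7 | h7 <;> rw [h7] <;> linarith
  -- growth of `v`
  have hv : ∀ m, W * v m = m * (p * h + q * r) + (i m * W + m * r) * (h - q) := by
    intro m; simp only [v]; rw [hWdef]; ring
  set C := (|X| + W) * |h - q| with hC
  have hbound : ∀ m, |(i m * W + m * r) * (h - q)| ≤ C := by
    intro m
    rw [abs_mul]
    apply mul_le_mul_of_nonneg_right _ (abs_nonneg _)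
    rw [abs_le]
    have h1 := hi1 m
    have h2 := hi2 m
    have h3 := neg_abs_le X
    have h4 := le_abs_self X
    constructor <;> linarith
  have hCnn : 0 ≤ C := by positivity
  have hex : ∃ m, Y ≤ v m := by
    refine ⟨W * |Y| + C, ?_⟩
    have h1 := hv (W * |Y| + C)
    have h2 := (abs_le.1 (hbound (W * |Y| + C))).1
    have h3 : (W * |Y| + C) * 1 ≤ (W * |Y| + C) * (p * h + q * r) :=
      mul_le_mul_of_nonneg_left (by omega) (by positivity)
    have h4 : W * Y ≤ W * |Y| := mul_le_mul_of_nonneg_left (le_abs_self Y) hW.le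
    have h5 : W * Y ≤ W * v (W * |Y| + C) := by linarith
    exact le_of_mul_le_mul_left h5 hW
  have hbdd : ∃ b, ∀ m, Y ≤ v m → b ≤ m := by
    refine ⟨-(W * |Y| + C), fun m hm => ?_⟩
    by_contra hcon
    have h0 : m < -(W * |Y| + C) := by omega
    have h1 := hv m
    have h2 := (abs_le.1 (hbound m)).2
    have hm0 : m ≤ 0 := by
      have : 0 ≤ W * |Y| + C := by positivity
      omega
    have h3 : m * (p * h + q * r) ≤ m * 1 := mul_le_mul_of_nonpos_left (by omega) hm0
    have h4 : W * (-|Y|) ≤ W * Y := mul_le_mul_of_nonneg_left (neg_abs_le Y) hW.le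
    have h5 : W * Y ≤ W * v m := mul_le_mul_of_nonneg_left hm hW.le
    linarith
  obtain ⟨m, hm, hmin⟩ := Int.exists_least_of_bdd hbdd hex
  refine ⟨i m, i m + m, ?_, ?_, hm, ?_⟩
  · have := hi1 m
    calc X ≤ i m * W + m * r := this
      _ = i m * p + (i m + m) * r := by rw [hWdef]; ring
  · have := hi2 m
    calc i m * p + (i m + m) * r = i m * W + m * r := by rw [hWdef]; ring
      _ < X + W := this
  · have h1 : v (m - 1) < Y := by
      by_contra hcon
      have := hmin (m - 1) (by omega)
      omega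
    have h2 := hstep (m - 1)
    rw [sub_add_cancel] at h2
    change v m < Y + H
    omega

/-- every `t × t` window of integer points meets `M` -/
def Cov (M : AddSubgroup (ℤ × ℤ)) (t : ℤ) : Prop :=
  ∀ X Y : ℤ, ∃ m ∈ M, X ≤ m.1 ∧ m.1 < X + t ∧ Y ≤ m.2 ∧ m.2 < Y + t

/-- `(p, -q)` and `(r, h)` span `M`, where `p, q, r, h ≥ 0` -/
structure IsBox (M : AddSubgroup (ℤ × ℤ)) (p q r h : ℤ) : Prop where
  hp : 0 ≤ p
  hq : 0 ≤ q
  hr : 0 ≤ r
  hh : 0 ≤ h
  mem1 : (p, -q) ∈ M
  mem2 : (r, h) ∈ M
  span : ∀ m ∈ M, ∃ i j : ℤ, m = (i * p + j * r, -(i * q) + j * h)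

lemma mem_comb {M : AddSubgroup (ℤ × ℤ)} {a b : ℤ × ℤ} (ha : a ∈ M) (hb : b ∈ M) (i j : ℤ) :
    (i * a.1 + j * b.1, i * a.2 + j * b.2) ∈ M := by
  have := M.add_mem (M.zsmul_mem ha i) (M.zsmul_mem hb j)
  have h2 : (i • a + j • b) = (i * a.1 + j * b.1, i * a.2 + j * b.2) := by
    ext <;> simp
  rwa [h2] at this

/-- the empty box -/
lemma IsBox.empty {M : AddSubgroup (ℤ × ℤ)} {p q r h : ℤ} (B : IsBox M p q r h) {m : ℤ × ℤ}
    (hm : m ∈ M) (h1 : 0 < m.1) (h2 : m.1 < p + r) (h3 : -q < m.2) (h4 : m.2 < h) : False := by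
  obtain ⟨i, j, rfl⟩ := B.span m hm
  have hp := B.hp
  have hq := B.hq
  have hr := B.hr
  have hh := B.hh
  simp only at h1 h2 h3 h4
  rcases le_or_gt i 0 with hi | hi <;> rcases le_or_gt j 0 with hj | hj
  · nlinarith
  · have : 1 ≤ j := hj
    nlinarith
  · have : 1 ≤ i := hi
    nlinarith
  · have h5 : 1 ≤ j := hj
    have h6 : 1 ≤ i := hi
    nlinarith

lemma Cov.pos {M : AddSubgroup (ℤ × ℤ)} {t : ℤ} (hM : Cov M t) : 0 < t := by
  obtain ⟨m, _, h1, h2, _⟩ := hM 0 0
  omega

lemma least_pos {P : ℤ → Prop} (h : ∃ x, 0 < x ∧ P x) :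
    ∃ x, 0 < x ∧ P x ∧ ∀ y, 0 < y → P y → x ≤ y := by
  obtain ⟨x, hx, hmin⟩ := Int.exists_least_of_bdd (P := fun x => 0 < x ∧ P x)
    ⟨0, fun z hz => hz.1.le⟩ h
  exact ⟨x, hx.1, hx.2, fun y hy hy' => hmin y ⟨hy, hy'⟩⟩

/-- a first basis -/
lemma exists_start {M : AddSubgroup (ℤ × ℤ)} {t : ℤ} (hM : Cov M t) :
    ∃ p q R, IsBox M p q 0 R ∧ p ≤ t := by
  have ht := hM.pos
  obtain ⟨p, hp, ⟨a2, ha⟩, hpmin⟩ := least_pos (P := fun x => ∃ y, (x, y) ∈ M) (by
    obtain ⟨m, hm, h1, _⟩ := hM 1 0
    exact ⟨m.1, by omega, m.2, hm⟩)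
  have hpt : p ≤ t := by
    obtain ⟨m, hm, h1, h2, _⟩ := hM 1 0
    have := hpmin m.1 (by omega) ⟨m.2, hm⟩
    omega
  have hdvd : ∀ m ∈ M, p ∣ m.1 := by
    intro m hm
    by_contra hcon
    have h1 : 0 < m.1 % p := by
      have := Int.emod_nonneg m.1 hp.ne'
      rcases this.lt_or_eq with h | h
      · exact h
      · exact absurd (Int.dvd_of_emod_eq_zero h.symm) hcon
    have h2 : (m.1 % p, m.2 - m.1 / p * a2) ∈ M := by
      have := mem_comb hm ha 1 (-(m.1 / p))
      convert this using 1
      ext
      · simp only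
        have := Int.mul_ediv_add_emod m.1 p
        linarith
      · simp only; ring
    have h3 := hpmin _ h1 ⟨_, h2⟩
    have h4 := Int.emod_lt_of_pos m.1 hp
    omega
  obtain ⟨R, hR, hR', hRmin⟩ := least_pos (P := fun y => ((0 : ℤ), y) ∈ M) (by
    obtain ⟨m, hm, h1, h2, h3, h4⟩ := hM 0 (t * |a2| + 1)
    obtain ⟨c, hc⟩ := hdvd m hm
    refine ⟨m.2 - c * a2, ?_, ?_⟩
    · have hc0 : 0 ≤ c := by
        by_contra hcon
        have : c ≤ -1 := by omega
        nlinarith
      have hct : c ≤ t := by
        by_contra hcon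
        have : t + 1 ≤ c := by omega
        nlinarith
      have h5 : c * a2 ≤ c * |a2| := mul_le_mul_of_nonneg_left (le_abs_self a2) hc0
      have h6 : c * |a2| ≤ t * |a2| := mul_le_mul_of_nonneg_right hct (abs_nonneg a2)
      linarith
    · have := mem_comb hm ha 1 (-c)
      convert this using 1
      ext
      · simp only; rw [hc]; ring
      · simp only; ring)
  have hdvd2 : ∀ y : ℤ, ((0 : ℤ), y) ∈ M → R ∣ y := by
    intro y hy
    by_contra hcon
    have h1 : 0 < y % R := by
      have := Int.emod_nonneg y hR.ne'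
      rcases this.lt_or_eq with h | h
      · exact h
      · exact absurd (Int.dvd_of_emod_eq_zero h.symm) hcon
    have h2 : ((0 : ℤ), y % R) ∈ M := by
      have := mem_comb hy hR' 1 (-(y / R))
      convert this using 1
      ext
      · simp
      · simp only
        have := Int.mul_ediv_add_emod y R
        linarith
    have h3 := hRmin _ h1 h2
    have h4 := Int.emod_lt_of_pos y hR
    omega
  have hmem : (p, -((-a2) % R)) ∈ M := by
    have := mem_comb ha hR' 1 ((-a2) / R)
    convert this using 1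
    ext
    · simp
    · simp only
      have := Int.mul_ediv_add_emod (-a2) R
      linarith
  refine ⟨p, (-a2) % R, R, ⟨hp.le, Int.emod_nonneg _ hR.ne', le_rfl, hR.le, hmem, hR', ?_⟩, hpt⟩
  intro m hm
  obtain ⟨c, hc⟩ := hdvd m hm
  have h1 : ((0 : ℤ), m.2 + c * ((-a2) % R)) ∈ M := by
    have := mem_comb hm hmem 1 (-c)
    convert this using 1
    ext
    · simp only; rw [hc]; ring
    · simp only; ring
  obtain ⟨e, he⟩ := hdvd2 _ h1
  refine ⟨c, e, ?_⟩
  ext
  · simp only; rw [hc]; ring
  · simp only; linarith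

/-- **Coverings by squares.** -/
theorem exists_box {M : AddSubgroup (ℤ × ℤ)} {t : ℤ} (hM : Cov M t) :
    ∃ p q r h, IsBox M p q r h ∧ p + r ≤ t ∧ q ≤ t ∧ h ≤ t := by
  suffices H : ∀ (N : ℕ) (p q r h : ℤ), IsBox M p q r h → p + r ≤ t → (q + h).toNat = N →
      ∃ p q r h, IsBox M p q r h ∧ p + r ≤ t ∧ q ≤ t ∧ h ≤ t by
    obtain ⟨p, q, R, hB, hpt⟩ := exists_start hM
    exact H _ p q 0 R hB (by omega) rfl
  intro N
  induction N using Nat.strong_induction_on with
  | _ N ih =>
    intro p q r h B hpr hN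
    have hp := B.hp
    have hq := B.hq
    have hr := B.hr
    have hh := B.hh
    by_cases hdone : q ≤ t ∧ h ≤ t
    · exact ⟨p, q, r, h, B, hpr, hdone.1, hdone.2⟩
    rcases le_or_gt q h with hqh | hqh
    · have hht : t < h := by
        by_contra hcon
        exact hdone ⟨by omega, by omega⟩
      have hq1 : 0 < q := by
        by_contra hcon
        have hq0 : q = 0 := by omega
        obtain ⟨m, hm, h1, h2, h3, h4⟩ := hM 1 1
        obtain ⟨i, j, rfl⟩ := B.span m hm
        simp only [hq0, mul_zero, neg_zero, zero_add] at h3 h4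
        rcases le_or_gt j 0 with hj | hj
        · nlinarith
        · have : 1 ≤ j := hj
          nlinarith
      have B' : IsBox M p q (p + r) (h - q) :=
        { hp := hp
          hq := hq
          hr := by omega
          hh := by omega
          mem1 := B.mem1
          mem2 := by
            have := mem_comb B.mem1 B.mem2 1 1
            convert this using 1
            ext <;> simp
            ring
          span := by
            intro m hm
            obtain ⟨i, j, rfl⟩ := B.span m hm
            refine ⟨i - j, j, ?_⟩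
            ext <;> simp only <;> ring }
      rcases le_or_gt (p + (p + r)) t with hw | hw
      · exact ih (q + (h - q)).toNat (by omega) p q (p + r) (h - q) B' hw rfl
      · exfalso
        obtain ⟨m, hm, h1, h2, h3, h4⟩ := hM 1 (1 - q)
        exact B'.empty hm (by omega) (by omega) (by omega) (by omega)
    · have hht : t < q := by
        by_contra hcon
        exact hdone ⟨by omega, by omega⟩
      have hh1 : 0 < h := by
        by_contra hcon
        have hh0 : h = 0 := by omega
        obtain ⟨m, hm, h1, h2, h3, h4⟩ := hM 1 1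
        obtain ⟨i, j, rfl⟩ := B.span m hm
        simp only [hh0, mul_zero, add_zero] at h3 h4
        rcases le_or_gt i (-1) with hi | hi
        · nlinarith
        · have : 0 ≤ i := by omega
          nlinarith
      have B' : IsBox M (p + r) (q - h) r h :=
        { hp := by omega
          hq := by omega
          hr := hr
          hh := hh
          mem1 := by
            have := mem_comb B.mem1 B.mem2 1 1
            convert this using 1
            ext <;> simp
            ring
          mem2 := B.mem2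
          span := by
            intro m hm
            obtain ⟨i, j, rfl⟩ := B.span m hm
            refine ⟨i, j - i, ?_⟩
            ext <;> simp only <;> ring }
      rcases le_or_gt ((p + r) + r) t with hw | hw
      · exact ih ((q - h) + h).toNat (by omega) (p + r) (q - h) r h B' hw rfl
      · exfalso
        obtain ⟨m, hm, h1, h2, h3, h4⟩ := hM 1 (1 - (q - h))
        exact B'.empty hm (by omega) (by omega) (by omega) (by omega)

end Pool.Agent.Q153.SpanTwo
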