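import Pool.Agent.Q153.SpanTwo.Arith

/-!
# From nearest points of `n M` to coverings
-/

set_option autoImplicit false

namespace Pool.Agent.Q153.SpanTwo

/-- every point `(U, V)` with `U ≡ V mod 2` is at sup distance at most `s` from `n M` -/
def Near (M : AddSubgroup (ℤ × ℤ)) (n s : ℤ) : Prop :=
  ∀ U V : ℤ, 2 ∣ U - V → ∃ m ∈ M, |U - n * m.1| ≤ s ∧ |V - n * m.2| ≤ s

lemma window {n s t e X U u : ℤ} (hn : 0 < n) (h1 : |2 * U - n * (2 * X + t - 1)| ≤ e)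
    (h2 : |U - n * u| ≤ s) (h3 : 2 * s + e < n * (t + 1)) : X ≤ u ∧ u < X + t := by
  rw [abs_le] at h1 h2
  constructor
  · by_contra hcon
    have h4 : u ≤ X - 1 := by omega
    have h5 : n * u ≤ n * (X - 1) := mul_le_mul_of_nonneg_left h4 hn.le
    nlinarith
  · by_contra hcon
    have h4 : X + t ≤ u := by omega
    have h5 : n * (X + t) ≤ n * u := mul_le_mul_of_nonneg_left h4 hn.le
    nlinarith

section

variable {M : AddSubgroup (ℤ × ℤ)} {n s t : ℤ}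

lemma cov_of_even (hn : 0 < n) (hn2 : 2 ∣ n) (h : Near M n s) (ht : 2 * s < n * (t + 1)) :
    Cov M t := by
  intro X Y
  obtain ⟨n', rfl⟩ := hn2
  obtain ⟨m, hm, h1, h2⟩ := h (n' * (2 * X + t - 1)) (n' * (2 * Y + t - 1))
    ⟨n' * (X - Y), by ring⟩
  obtain ⟨h3, h4⟩ := window (X := X) (t := t) (e := 0) hn
    (by rw [show 2 * (n' * (2 * X + t - 1)) - 2 * n' * (2 * X + t - 1) = 0 by ring]; simp) h1
    (by linarith)
  obtain ⟨h5, h6⟩ := window (X := Y) (t := t) (e := 0) hn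
    (by rw [show 2 * (n' * (2 * Y + t - 1)) - 2 * n' * (2 * Y + t - 1) = 0 by ring]; simp) h2
    (by linarith)
  exact ⟨m, hm, h3, h4, h5, h6⟩

lemma cov_of_odd_even (hn : 0 < n) (hn2 : Odd n) (ht2 : 2 ∣ t) (h : Near M n s)
    (ht : 2 * s + 1 < n * (t + 1)) : Cov M t := by
  intro X Y
  obtain ⟨n', rfl⟩ := hn2
  obtain ⟨c, rfl⟩ := ht2
  -- `2 U = n (2 X + t - 1) ± 1`
  set U := (2 * n' + 1) * (X + c) - n' with hU
  set V := (2 * n' + 1) * (Y + c) - n' with hV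
  have e1 : 2 * U - (2 * n' + 1) * (2 * X + 2 * c - 1) = 1 := by rw [hU]; ring
  have e2 : 2 * V - (2 * n' + 1) * (2 * Y + 2 * c - 1) = 1 := by rw [hV]; ring
  have key : ∀ ε : ℤ, (ε = 0 ∨ ε = 1) → 2 ∣ U - (V - ε) →
      ∃ m ∈ M, X ≤ m.1 ∧ m.1 < X + 2 * c ∧ Y ≤ m.2 ∧ m.2 < Y + 2 * c := by
    intro ε hε hpar
    obtain ⟨m, hm, h1, h2⟩ := h U (V - ε) hpar
    obtain ⟨h3, h4⟩ := window (X := X) (t := 2 * c) (e := 1) hn (by rw [e1]; simp) h1 ht
    obtain ⟨h5, h6⟩ := window (X := Y) (t := 2 * c) (e := 1) hn (by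
      rw [show 2 * (V - ε) - (2 * n' + 1) * (2 * Y + 2 * c - 1) = 1 - 2 * ε by linarith]
      rcases hε with rfl | rfl <;> simp) h2 ht
    exact ⟨m, hm, h3, h4, h5, h6⟩
  rcases Int.even_or_odd' (U - V) with ⟨z, hz | hz⟩
  · exact key 0 (Or.inl rfl) ⟨z, by omega⟩
  · exact key 1 (Or.inr rfl) ⟨z + 1, by omega⟩

/-- the window at `(X, Y)` with `X ≡ Y mod 2` contains a point of `M` -/
lemma win_of_odd_odd (hn : 0 < n) (ht2 : Odd t) (h : Near M n s)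
    (ht : 2 * s < n * (t + 1)) {X Y : ℤ} (hXY : 2 ∣ X - Y) :
    ∃ m ∈ M, X ≤ m.1 ∧ m.1 < X + t ∧ Y ≤ m.2 ∧ m.2 < Y + t := by
  obtain ⟨c, rfl⟩ := ht2
  obtain ⟨z, hz⟩ := hXY
  obtain ⟨m, hm, h1, h2⟩ := h (n * (X + c)) (n * (Y + c))
    ⟨n * z, by rw [show n * (X + c) - n * (Y + c) = n * (X - Y) by ring, hz]; ring⟩
  obtain ⟨h3, h4⟩ := window (X := X) (t := 2 * c + 1) (e := 0) hn
    (by rw [show 2 * (n * (X + c)) - n * (2 * X + (2 * c + 1) - 1) = 0 by ring]; simp) h1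
    (by linarith)
  obtain ⟨h5, h6⟩ := window (X := Y) (t := 2 * c + 1) (e := 0) hn
    (by rw [show 2 * (n * (Y + c)) - n * (2 * Y + (2 * c + 1) - 1) = 0 by ring]; simp) h2
    (by linarith)
  exact ⟨m, hm, h3, h4, h5, h6⟩

lemma cov_of_odd_odd (hn : 0 < n) (hn2 : Odd n) (ht2 : Odd t) (h : Near M n s)
    (ht : 2 * s + 2 < n * (t + 1)) : Cov M t := by
  intro X Y
  by_cases hpar : 2 ∣ X - Y
  · exact win_of_odd_odd hn ht2 h (by linarith) hpar
  obtain ⟨c, rfl⟩ := ht2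
  obtain ⟨z, hz⟩ : ∃ z, X - Y = 2 * z + 1 := ⟨(X - Y) / 2, by omega⟩
  obtain ⟨n', hn'⟩ := hn2
  obtain ⟨m, hm, h1, h2⟩ := h (n * (X + c) + 1) (n * (Y + c))
    ⟨n * z + n' + 1, by
      rw [show n * (X + c) + 1 - n * (Y + c) = n * (X - Y) + 1 by ring, hz]
      linear_combination hn'⟩
  obtain ⟨h3, h4⟩ := window (X := X) (t := 2 * c + 1) (e := 2) hn
    (by rw [show 2 * (n * (X + c) + 1) - n * (2 * X + (2 * c + 1) - 1) = 2 by ring]; simp) h1
    (by linarith)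
  obtain ⟨h5, h6⟩ := window (X := Y) (t := 2 * c + 1) (e := 0) hn
    (by rw [show 2 * (n * (Y + c)) - n * (2 * Y + (2 * c + 1) - 1) = 0 by ring]; simp) h2
    (by linarith)
  exact ⟨m, hm, h3, h4, h5, h6⟩

/-- The exceptional case: an empty square with a lattice point on each side. -/
lemma exceptional (hn : 2 ≤ n) (hn2 : Odd n) (ht2 : Odd t) (h : Near M n s)
    (ht : 2 * s + 2 = n * (t + 1)) (hcov : ¬ Cov M t) :
    ∃ p q r l : ℤ, 1 ≤ p ∧ 1 ≤ q ∧ 1 ≤ r ∧ 1 ≤ l ∧ (p, -q) ∈ M ∧ (r, l) ∈ M ∧ p + r = t + 1 ∧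
      q + l = t + 1 := by
  obtain ⟨X, Y, hXY⟩ : ∃ X Y : ℤ, ¬ ∃ m ∈ M, X ≤ m.1 ∧ m.1 < X + t ∧ Y ≤ m.2 ∧ m.2 < Y + t := by
    by_contra hcon
    push Not at hcon
    exact hcov fun X Y => by
      obtain ⟨m, hm, h'⟩ := hcon X Y
      exact ⟨m, hm, h'⟩
  have hn0 : 0 < n := by omega
  have hpar : ¬ 2 ∣ X - Y := fun hpar => hXY (win_of_odd_odd hn0 ht2 h (by linarith) hpar)
  have hempty : ∀ m ∈ M, X ≤ m.1 → m.1 < X + t → Y ≤ m.2 → m.2 < Y + t → False :=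
    fun m hm h1 h2 h3 h4 => hXY ⟨m, hm, h1, h2, h3, h4⟩
  obtain ⟨c, rfl⟩ := ht2
  obtain ⟨z, hz⟩ : ∃ z, X - Y = 2 * z + 1 := ⟨(X - Y) / 2, by omega⟩
  obtain ⟨n', hn'⟩ := hn2
  have hs : s + 1 = n * (c + 1) := by linarith
  have hpar1 : ∀ ε : ℤ, 2 ∣ (n * (X + c) + (2 * ε + 1)) - n * (Y + c) := fun ε =>
    ⟨n * z + n' + 1 + ε, by
      rw [show n * (X + c) + (2 * ε + 1) - n * (Y + c) = n * (X - Y) + (2 * ε + 1) by ring, hz]
      linear_combination hn'⟩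
  have hpar2 : ∀ ε : ℤ, 2 ∣ n * (X + c) - (n * (Y + c) + (2 * ε + 1)) := fun ε =>
    ⟨n * z + n' - ε, by
      rw [show n * (X + c) - (n * (Y + c) + (2 * ε + 1)) = n * (X - Y) - (2 * ε + 1) by ring, hz]
      linear_combination hn'⟩
  -- the middle coordinate
  have mid : ∀ Z w : ℤ, |n * (Z + c) - n * w| ≤ s → Z ≤ w ∧ w < Z + (2 * c + 1) := by
    intro Z w hw
    exact window (X := Z) (t := 2 * c + 1) (e := 0) hn0
      (by rw [show 2 * (n * (Z + c)) - n * (2 * Z + (2 * c + 1) - 1) = 0 by ring]; simp) hw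
      (by linarith)
  have up : ∀ Z w : ℤ, |n * (Z + c) + (2 * 0 + 1) - n * w| ≤ s →
      Z ≤ w ∧ w ≤ Z + (2 * c + 1) := by
    intro Z w hw
    rw [abs_le] at hw
    constructor
    · by_contra hcon
      have h4 : w ≤ Z - 1 := by omega
      have h5 : n * w ≤ n * (Z - 1) := mul_le_mul_of_nonneg_left h4 hn0.le
      nlinarith
    · by_contra hcon
      have h4 : Z + (2 * c + 1) + 1 ≤ w := by omega
      have h5 : n * (Z + (2 * c + 1) + 1) ≤ n * w := mul_le_mul_of_nonneg_left h4 hn0.le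
      nlinarith
  have down : ∀ Z w : ℤ, |n * (Z + c) + (2 * (-1) + 1) - n * w| ≤ s →
      Z - 1 ≤ w ∧ w < Z + (2 * c + 1) := by
    intro Z w hw
    rw [abs_le] at hw
    constructor
    · by_contra hcon
      have h4 : w ≤ Z - 2 := by omega
      have h5 : n * w ≤ n * (Z - 2) := mul_le_mul_of_nonneg_left h4 hn0.le
      nlinarith
    · by_contra hcon
      have h4 : Z + (2 * c + 1) ≤ w := by omega
      have h5 : n * (Z + (2 * c + 1)) ≤ n * w := mul_le_mul_of_nonneg_left h4 hn0.le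
      nlinarith
  obtain ⟨Q, hQ, hQ1, hQ2⟩ := h _ _ (hpar1 0)
  obtain ⟨P, hP, hP1, hP2⟩ := h _ _ (hpar1 (-1))
  obtain ⟨T, hT, hT1, hT2⟩ := h _ _ (hpar2 0)
  obtain ⟨B, hB, hB1, hB2⟩ := h _ _ (hpar2 (-1))
  have q1 := up X Q.1 hQ1
  have q2 := mid Y Q.2 hQ2
  have p1 := down X P.1 hP1
  have p2 := mid Y P.2 hP2
  have t1 := mid X T.1 hT1
  have t2 := up Y T.2 hT2
  have b1 := mid X B.1 hB1
  have b2 := down Y B.2 hB2
  have hQx : Q.1 = X + (2 * c + 1) := by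
    by_contra hcon
    exact hempty Q hQ q1.1 (by omega) q2.1 q2.2
  have hPx : P.1 = X - 1 := by
    by_contra hcon
    exact hempty P hP (by omega) p1.2 p2.1 p2.2
  have hTy : T.2 = Y + (2 * c + 1) := by
    by_contra hcon
    exact hempty T hT t1.1 t1.2 t2.1 (by omega)
  have hBy : B.2 = Y - 1 := by
    by_contra hcon
    exact hempty B hB b1.1 b1.2 (by omega) b2.2
  -- the parallelogram
  have g1 : P.2 + Q.2 = T.2 + B.2 := by
    have m1 := M.sub_mem (M.add_mem hP hQ) hB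
    have m2 := M.sub_mem (M.add_mem hP hQ) hT
    by_contra hcon
    rcases lt_or_gt_of_ne hcon with hlt | hlt
    · refine hempty _ m1 ?_ ?_ ?_ ?_ <;> simp only [Prod.fst_add, Prod.fst_sub, Prod.snd_add,
        Prod.snd_sub] <;> omega
    · refine hempty _ m2 ?_ ?_ ?_ ?_ <;> simp only [Prod.fst_add, Prod.fst_sub, Prod.snd_add,
        Prod.snd_sub] <;> omega
  have g2 : P.1 + Q.1 = T.1 + B.1 := by
    have m1 := M.sub_mem (M.add_mem hT hB) hP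
    have m2 := M.sub_mem (M.add_mem hT hB) hQ
    by_contra hcon
    rcases lt_or_gt_of_ne hcon with hlt | hlt
    · refine hempty _ m2 ?_ ?_ ?_ ?_ <;> simp only [Prod.fst_add, Prod.fst_sub, Prod.snd_add,
        Prod.snd_sub] <;> omega
    · refine hempty _ m1 ?_ ?_ ?_ ?_ <;> simp only [Prod.fst_add, Prod.fst_sub, Prod.snd_add,
        Prod.snd_sub] <;> omega
  refine ⟨B.1 - P.1, P.2 - B.2, T.1 - P.1, T.2 - P.2, by omega, by omega, by omega, by omega,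
    ?_, M.sub_mem hT hP, by omega, by omega⟩
  have := M.sub_mem hB hP
  convert this using 1
  ext <;> simp

end

end Pool.Agent.Q153.SpanTwo
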