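import Pool.Agent.Q153.SpanTwo.Group

/-!
# Signed sumsets and the function `φ_±(G, [0,s])`
-/

set_option autoImplicit false

namespace Pool.Agent.Q153.SpanTwo

lemma two_le_card {n k s : ℕ} (hn : 2 ≤ n) {A : Finset (ZMod n × ZMod (n * k))}
    (hA : signedSumset s A = Set.univ) : 2 ≤ A.card := by
  by_contra hcon
  -- all elements are multiples of one element
  obtain ⟨a, ha⟩ : ∃ a, A ⊆ {a} := by
    have h1 : A.card ≤ 1 := by omega
    rcases Finset.card_le_one_iff_subset_singleton.1 h1 with ⟨a, ha⟩
    exact ⟨a, ha⟩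
  have hmul : ∀ g : ZMod n × ZMod (n * k), ∃ x : ℤ, x • a = g := by
    intro g
    have hg : g ∈ signedSumset s A := by rw [hA]; exact Set.mem_univ g
    obtain ⟨c, -, h2⟩ := hg
    rcases Finset.subset_singleton_iff.1 ha with h3 | h3
    · rw [h3, Finset.sum_empty] at h2
      exact ⟨0, by rw [zero_smul]; exact h2⟩
    · rw [h3, Finset.sum_singleton] at h2
      exact ⟨c a, h2⟩
  obtain ⟨x1, h1⟩ := hmul (1, 0)
  obtain ⟨x2, h2⟩ := hmul (0, 1)
  have h3 : x2 • (x1 • a) = x1 • (x2 • a) := smul_comm x2 x1 a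
  rw [h1, h2] at h3
  have h4 : (0 : ZMod (n * k)) = x1 := by
    have := congrArg Prod.snd h3
    simpa [Prod.smul_snd] using this
  have h5 : (n : ℤ) ∣ x1 := by
    have h6 := h4.symm
    rw [ZMod.intCast_zmod_eq_zero_iff_dvd] at h6
    exact dvd_trans ⟨(k : ℤ), by push_cast; ring⟩ h6
  have h6 : (x1 : ZMod n) = 0 := by rw [ZMod.intCast_zmod_eq_zero_iff_dvd]; exact h5
  have h7 := congrArg Prod.fst h1
  rw [Prod.smul_fst, zsmul_eq_mul, h6, zero_mul] at h7
  have : Fact (1 < n) := ⟨by omega⟩
  exact zero_ne_one h7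

lemma signedSumset_pair {G : Type*} [AddCommGroup G] [DecidableEq G] {s : ℕ} {a b : G}
    (hab : a ≠ b) : signedSumset s {a, b} = Set.univ ↔ Spans (s : ℤ) a b := by
  constructor
  · intro h g
    have hg : g ∈ signedSumset s {a, b} := by rw [h]; exact Set.mem_univ g
    obtain ⟨c, h1, h2⟩ := hg
    rw [Finset.sum_pair hab] at h1 h2
    exact ⟨c a, c b, h1, h2⟩
  · intro h
    rw [Set.eq_univ_iff_forall]
    intro g
    obtain ⟨x, y, h1, h2⟩ := h g
    refine ⟨fun z => if z = a then x else y, ?_, ?_⟩
    · rw [Finset.sum_pair hab]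
      simp only [if_true, if_neg hab.symm]
      exact h1
    · rw [Finset.sum_pair hab]
      simp only [if_true, if_neg hab.symm]
      exact h2

/-- `φ_± = 2` means that there is a spanning pair. -/
theorem phi_eq_two_iff {n k : ℕ} (hn : 2 ≤ n) (s : ℕ) :
    phi (ZMod n × ZMod (n * k)) s = 2 ↔ ∃ a b : ZMod n × ZMod (n * k), Spans (s : ℤ) a b := by
  classical
  constructor
  · intro h
    have hne : {m | ∃ A : Finset (ZMod n × ZMod (n * k)), A.card = m ∧
        signedSumset s A = Set.univ}.Nonempty := by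
      by_contra hcon
      rw [Set.not_nonempty_iff_eq_empty] at hcon
      unfold phi at h
      rw [hcon, Nat.sInf_empty] at h
      omega
    have hmem := Nat.sInf_mem hne
    change phi _ s ∈ _ at hmem
    rw [h] at hmem
    obtain ⟨A, hA, hA2⟩ := hmem
    obtain ⟨a, b, hab, rfl⟩ := Finset.card_eq_two.1 hA
    exact ⟨a, b, (signedSumset_pair hab).1 hA2⟩
  · rintro ⟨a, b, h⟩
    have hab : a ≠ b := by
      rintro rfl
      -- then one element generates
      have h2 : signedSumset (2 * s) {a} = Set.univ := by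
        rw [Set.eq_univ_iff_forall]
        intro g
        obtain ⟨x, y, h1, h2⟩ := h g
        refine ⟨fun _ => x + y, ?_, ?_⟩
        · rw [Finset.sum_singleton]
          have := abs_add_le x y
          push_cast
          have h0 : (0 : ℤ) ≤ s := by positivity
          linarith
        · rw [Finset.sum_singleton, add_smul]; exact h2
      have := two_le_card hn h2
      rw [Finset.card_singleton] at this
      omega
    have h2 : 2 ∈ {m | ∃ A : Finset (ZMod n × ZMod (n * k)), A.card = m ∧
        signedSumset s A = Set.univ} :=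
      ⟨{a, b}, Finset.card_pair hab, (signedSumset_pair hab).2 h⟩
    apply le_antisymm
    · exact Nat.sInf_le h2
    · refine le_csInf ⟨2, h2⟩ ?_
      rintro m ⟨A, rfl, hA⟩
      exact two_le_card hn hA

end Pool.Agent.Q153.SpanTwo
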